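import Pool.Agent.H95.VG.Targets5
import Pool.Agent.H95.VG.Targets1

/-! module CHG of MP_6803f2_an (adapted from helper41's CHN) -/

open MeasureTheory Set Filter Topology
open scoped ENNReal NNReal ContDiff ComplexConjugate

namespace Pool.Agent.H19.VG

open Pool.Agent.H95.VG

variable {n N : ℕ}

lemma fderiv_comp_hol {F : Type*} [NormedAddCommGroup F] [NormedSpace ℝ F]
    {Y : V n → V N} {z : V n} (hY : DifferentiableAt ℂ Y z) {q : V N → F}
    (hq : DifferentiableAt ℝ q (Y z)) (v : V n) :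
    fderiv ℝ (fun x => q (Y x)) z v = fderiv ℝ q (Y z) (fderiv ℂ Y z v) := by
  have h1 : HasFDerivAt (fun x => q (Y x))
      ((fderiv ℝ q (Y z)).comp ((fderiv ℂ Y z).restrictScalars ℝ)) z :=
    hq.hasFDerivAt.comp z (hY.hasFDerivAt.restrictScalars ℝ)
  rw [h1.fderiv]
  rfl

lemma second_comp_hol {F : Type*} [NormedAddCommGroup F] [NormedSpace ℝ F]
    {O : Set (V n)} (hO : IsOpen O) {Y : V n → V N} (hY : DifferentiableOn ℂ Y O)
    (hY2 : ∀ v, DifferentiableOn ℂ (fun x => fderiv ℂ Y x v) O)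
    {z : V n} (hz : z ∈ O) {q : V N → F} (hq : ContDiffAt ℝ 2 q (Y z)) (v u : V n) :
    fderiv ℝ (fun x => fderiv ℝ (fun x => q (Y x)) x v) z u
      = fderiv ℝ (fun y => fderiv ℝ q y (fderiv ℂ Y z v)) (Y z) (fderiv ℂ Y z u)
        + fderiv ℝ q (Y z) (fderiv ℂ (fun x => fderiv ℂ Y x v) z u) := by
  have hOz : O ∈ 𝓝 z := hO.mem_nhds hz
  have hYz : DifferentiableAt ℂ Y z := hY.differentiableAt hOz
  have hq1 : ∀ᶠ y in 𝓝 (Y z), ContDiffAt ℝ 2 q y := hq.eventually (by simp)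
  have hev : ∀ᶠ x in 𝓝 z, fderiv ℝ (fun x => q (Y x)) x v
      = fderiv ℝ q (Y x) (fderiv ℂ Y x v) := by
    filter_upwards [hOz, hYz.continuousAt.eventually hq1] with x hx hx2
    exact fderiv_comp_hol (hY.differentiableAt (hO.mem_nhds hx))
      (hx2.differentiableAt (by norm_num)) v
  have hq2 : DifferentiableAt ℝ (fderiv ℝ q) (Y z) :=
    (hq.fderiv_right (m := 1) (by norm_num)).differentiableAt (by norm_num)
  have hA : DifferentiableAt ℂ (fun x => fderiv ℂ Y x v) z :=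
    (hY2 v).differentiableAt hOz
  have h1 : HasFDerivAt (fun x => fderiv ℝ q (Y x))
      ((fderiv ℝ (fderiv ℝ q) (Y z)).comp ((fderiv ℂ Y z).restrictScalars ℝ)) z :=
    hq2.hasFDerivAt.comp z (hYz.hasFDerivAt.restrictScalars ℝ)
  have h2 : HasFDerivAt (fun x => fderiv ℂ Y x v)
      ((fderiv ℂ (fun x => fderiv ℂ Y x v) z).restrictScalars ℝ) z :=
    hA.hasFDerivAt.restrictScalars ℝ
  have h3 := h1.clm_apply h2
  have h4 : HasFDerivAt (fun x => fderiv ℝ (fun x => q (Y x)) x v) _ z :=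
    h3.congr_of_eventuallyEq hev
  have h5 : HasFDerivAt (fun y => fderiv ℝ q y (fderiv ℂ Y z v)) _ (Y z) :=
    hq2.hasFDerivAt.clm_apply (hasFDerivAt_const (fderiv ℂ Y z v) (Y z))
  rw [h4.fderiv, h5.fderiv]
  simp [add_comm]

lemma lev_comp_hol {F : Type*} [NormedAddCommGroup F] [NormedSpace ℝ F]
    {O : Set (V n)} (hO : IsOpen O) {Y : V n → V N} (hY : DifferentiableOn ℂ Y O)
    (hY2 : ∀ v, DifferentiableOn ℂ (fun x => fderiv ℂ Y x v) O)
    {z : V n} (hz : z ∈ O) {q : V N → F} (hq : ContDiffAt ℝ 2 q (Y z)) (v : V n) :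
    lev (fun x => q (Y x)) z v = lev q (Y z) (fderiv ℂ Y z v) := by
  have hOz : O ∈ 𝓝 z := hO.mem_nhds hz
  have hA : DifferentiableAt ℂ (fun x => fderiv ℂ Y x v) z :=
    (hY2 v).differentiableAt hOz
  have key : fderiv ℂ (fun x => fderiv ℂ Y x (Complex.I • v)) z (Complex.I • v)
      = - fderiv ℂ (fun x => fderiv ℂ Y x v) z v := by
    have e1 : (fun x => fderiv ℂ Y x (Complex.I • v))
        = fun x => Complex.I • fderiv ℂ Y x v := by
      funext x; rw [map_smul]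
    rw [e1, fderiv_fun_const_smul hA, smul_apply, map_smul, smul_smul]
    simp
  unfold lev
  rw [second_comp_hol hO hY hY2 hz hq v v,
    second_comp_hol hO hY hY2 hz hq (Complex.I • v) (Complex.I • v), key, map_neg]
  congr 1
  rw [map_smul]
  abel

/-- module CHG -/
theorem chg (h0 : T_SMO) : T_CHG := by
  intro n N O Y hO hY z hz v
  have hYz : DifferentiableAt ℂ Y z := hY.differentiableAt (hO.mem_nhds hz)
  have hY2 : ∀ v, DifferentiableOn ℂ (fun x => fderiv ℂ Y x v) O := (h0 n (V N) O Y hO hY).2.2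
  refine ⟨fun q hq => ?_, fun q hq => ?_⟩
  · unfold dr
    rw [fderiv_comp_hol hYz hq, fderiv_comp_hol hYz hq, map_smul]
  · exact lev_comp_hol hO hY hY2 hz hq v

end Pool.Agent.H19.VG
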