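import Pool.Agent.H95.VG.Targets5
import Pool.Agent.H95.VG.Targets1

/-! module LZB of MP_6803f2_an -/

open MeasureTheory Set Filter Topology
open scoped ENNReal NNReal ContDiff ComplexConjugate

namespace Pool.Agent.H19.VG

open Pool.Agent.H95.VG

variable {n : ℕ}

lemma differentiableAt_Zf {F : V n → V n} {z : V n} (hF : DifferentiableAt ℂ F z) :
    DifferentiableAt ℂ (Zf F) z := by
  rw [differentiableAt_pi]
  intro i
  refine Fin.addCases (fun j => ?_) (fun j => ?_) i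
  · have : (fun x => Zf F x (Fin.castAdd n j)) = fun x : V n => x j := by
      funext x; simp [Zf]
    rw [this]
    exact differentiableAt_apply j z
  · have : (fun x => Zf F x (Fin.natAdd n j)) = fun x : V n => F x j := by
      funext x; exact Fin.append_right _ _ _
    rw [this]
    exact differentiableAt_pi.1 hF j

lemma fderiv_Zf {F : V n → V n} {z : V n} (hF : DifferentiableAt ℂ F z) (X : V n) :
    fderiv ℂ (Zf F) z X = Fin.append X (fderiv ℂ F z X) := by
  have hZ := differentiableAt_Zf hF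
  funext i
  have h0 : fderiv ℂ (Zf F) z X i = fderiv ℂ (fun x => Zf F x i) z X := by
    rw [fderiv_apply hZ]; rfl
  rw [h0]
  refine Fin.addCases (fun j => ?_) (fun j => ?_) i
  · have : (fun x => Zf F x (Fin.castAdd n j)) = fun x : V n => x j := by
      funext x; simp [Zf]
    rw [this, Fin.append_left]
    have h2 : fderiv ℂ (fun x : V n => x j) z = ContinuousLinearMap.proj j :=
      (ContinuousLinearMap.proj (R := ℂ) (φ := fun _ : Fin n => ℂ) j).fderiv
    rw [h2]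
    rfl
  · have : (fun x => Zf F x (Fin.natAdd n j)) = fun x : V n => F x j := by
      funext x; exact Fin.append_right _ _ _
    rw [this, Fin.append_right, fderiv_apply hF]
    rfl

lemma fderiv_eq_jac {F : V n → V n} (z X : V n) (j : Fin n) :
    fderiv ℂ F z X j = ∑ i, jac F z j i * X i := by
  have hX : X = ∑ i, X i • ek i := by
    funext l
    simp [ek, Finset.sum_apply, Pi.single_apply]
  conv_lhs => rw [hX]
  rw [map_sum, Finset.sum_apply]
  refine Finset.sum_congr rfl fun i _ => ?_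
  rw [map_smul]
  simp [jac, mul_comm]

lemma bdd_op {E F : Type*} [NormedAddCommGroup E] [NormedSpace ℝ E] [NormedAddCommGroup F]
    [NormedSpace ℝ F] (Φ : E → (E →L[ℝ] F)) (h2 : Continuous Φ) (h3 : HasCompactSupport Φ) :
    ∃ B : ℝ, ∀ Z : E, ‖Φ Z‖ ≤ B := by
  obtain ⟨B, hB⟩ := h2.bounded_above_of_compact_support h3
  exact ⟨B, hB⟩

lemma fderiv2_bounded {E : Type*} [NormedAddCommGroup E] [NormedSpace ℝ E] (Θ : E → ℝ)
    (hΘ : ContDiff ℝ ∞ Θ) (hc : HasCompactSupport Θ) :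
    ContDiff ℝ ∞ (fderiv ℝ Θ) ∧ ∃ B : ℝ, ∀ Z : E, ‖fderiv ℝ (fderiv ℝ Θ) Z‖ ≤ B := by
  have h1 : ContDiff ℝ ∞ (fderiv ℝ Θ) := hΘ.fderiv_right (m := ∞) (by norm_cast)
  have h2 : Continuous (fderiv ℝ (fderiv ℝ Θ)) := h1.continuous_fderiv (by simp)
  have h3 : HasCompactSupport (fderiv ℝ (fderiv ℝ Θ)) := (hc.fderiv (𝕜 := ℝ)).fderiv (𝕜 := ℝ)
  exact ⟨h1, bdd_op (E := E) (F := E →L[ℝ] ℝ) (Φ := fderiv ℝ (fderiv ℝ Θ)) h2 h3⟩

lemma exists_bound (n' : ℕ) (Θ : V n' → ℝ) (hΘ : ContDiff ℝ ∞ Θ) (hc : HasCompactSupport Θ) :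
    ∃ B : ℝ, 0 ≤ B ∧ ∀ Z W : V n', |lev Θ Z W| ≤ B * ‖W‖ ^ 2 := by
  obtain ⟨h1, B, hB⟩ := fderiv2_bounded Θ hΘ hc
  have hB0 : 0 ≤ B := by
    refine le_trans ?_ (hB 0)
    positivity
  refine ⟨B, hB0, fun Z W => ?_⟩
  have hd : DifferentiableAt ℝ (fderiv ℝ Θ) Z := (h1.differentiable (by simp)) Z
  have e : ∀ v u : V n', fderiv ℝ (fun x => fderiv ℝ Θ x v) Z u
      = fderiv ℝ (fderiv ℝ Θ) Z u v := by
    intro v u
    have h := hd.hasFDerivAt.clm_apply (hasFDerivAt_const v Z)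
    rw [h.fderiv]
    simp
  have b : ∀ v : V n', |fderiv ℝ (fun x => fderiv ℝ Θ x v) Z v| ≤ B * ‖v‖ ^ 2 := by
    intro v
    rw [e, ← Real.norm_eq_abs]
    calc ‖fderiv ℝ (fderiv ℝ Θ) Z v v‖ ≤ ‖fderiv ℝ (fderiv ℝ Θ) Z v‖ * ‖v‖ :=
          ContinuousLinearMap.le_opNorm _ _
      _ ≤ (‖fderiv ℝ (fderiv ℝ Θ) Z‖ * ‖v‖) * ‖v‖ := by
          gcongr
          exact ContinuousLinearMap.le_opNorm _ _
      _ ≤ (B * ‖v‖) * ‖v‖ := by
          gcongr
          exact hB Z
      _ = B * ‖v‖ ^ 2 := by ring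
  have b1 := b W
  have b2 := b (Complex.I • W)
  have hI : ‖Complex.I • W‖ = ‖W‖ := by
    rw [norm_smul]; simp
  rw [hI] at b2
  unfold lev
  rw [smul_eq_mul, abs_mul]
  have h4 : |(4 : ℝ)⁻¹| = 1 / 4 := by norm_num [abs_of_pos]
  rw [h4]
  have h5 := abs_add_le (fderiv ℝ (fun x => fderiv ℝ Θ x W) Z W)
    (fderiv ℝ (fun x => fderiv ℝ Θ x (Complex.I • W)) Z (Complex.I • W))
  have h6 : 0 ≤ B * ‖W‖ ^ 2 := by positivity
  nlinarith

/-- module LZB -/
theorem lzb (h0 : T_DOM) (h1 : T_CHG) : T_LZB := by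
  intro n Θ hΘ hc
  obtain ⟨B, hB0, hB⟩ := exists_bound (n + n) Θ hΘ hc
  refine ⟨B, hB0, fun O F hO hF z hz Φ k => ?_⟩
  have hFz : DifferentiableAt ℂ F z := hF.differentiableAt (hO.mem_nhds hz)
  obtain ⟨d1, -, -, d4, -, d6, -⟩ := h0 n F z hFz
  have hDm : 0 ≤ Dm F z := by linarith
  have hZO : DifferentiableOn ℂ (Zf F) O := fun x hx =>
    (differentiableAt_Zf (hF.differentiableAt (hO.mem_nhds hx))).differentiableWithinAt
  set X := cf (mix Φ F) k z with hX
  have hchg := (h1 n (n + n) O (Zf F) hO hZO z hz X).2 Θ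
    ((hΘ.of_le (by norm_cast)).contDiffAt)
  rw [hchg]
  refine (hB _ _).trans ?_
  refine mul_le_mul_of_nonneg_left ?_ hB0
  have key : ‖fderiv ℂ (Zf F) z X‖ ≤ Real.sqrt (Dm F z) := by
    rw [pi_norm_le_iff_of_nonneg (Real.sqrt_nonneg _)]
    intro i
    rw [fderiv_Zf hFz]
    refine Real.le_sqrt_of_sq_le ?_
    refine Fin.addCases (fun j => ?_) (fun j => ?_) i
    · rw [Fin.append_left]
      exact d4 Φ k j
    · rw [Fin.append_right, fderiv_eq_jac]
      have e : ∑ i, jac F z j i * X i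
          = (jac (mix (Function.update Φ k (Sum.inr j)) F) z).det := by
        have e1 : jac (mix (Function.update Φ k (Sum.inr j)) F) z
            = (jac (mix Φ F) z).updateRow k (jac F z j) := by
          funext l
          rw [d6]
          by_cases hl : l = k
          · subst hl
            simp [Matrix.updateRow_self]
          · rw [Matrix.updateRow_ne hl, d6, Function.update_of_ne hl]
        rw [e1, Matrix.det_eq_sum_mul_adjugate_row _ k]
        refine Finset.sum_congr rfl fun i _ => ?_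
        rw [Matrix.updateRow_self]
        congr 1
        show (jac (mix Φ F) z).adjugate i k = _
        rw [Matrix.adjugate_apply, Matrix.adjugate_apply, Matrix.updateRow_idem]
      rw [e]
      exact Finset.single_le_sum
        (f := fun Φ : Fin n → Fin n ⊕ Fin n => ‖(jac (mix Φ F) z).det‖ ^ 2)
        (fun _ _ => by positivity) (Finset.mem_univ (Function.update Φ k (Sum.inr j)))
  calc ‖fderiv ℂ (Zf F) z X‖ ^ 2 ≤ (Real.sqrt (Dm F z)) ^ 2 := by gcongr
    _ = Dm F z := Real.sq_sqrt hDm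

end Pool.Agent.H19.VG
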