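import Pool.Agent.H95.VG.Targets5

/-! module MRC of MP_6803f2_an -/

open MeasureTheory Set Filter Topology
open scoped ENNReal NNReal ContDiff ComplexConjugate

namespace Pool.Agent.H19.VG

open Pool.Agent.H95.VG

/-- module MRC -/
theorem mrc : T_MRC := by
  intro n X X' _ _ _ _ ι ι' A A' j e f f' I D hj hs hφ hf h
  have hsrc : ∀ a, ∀ z ∈ D \ I, (f' z ∈ (A'.φ a).source ↔ f z ∈ (A.φ (e a)).source) := by
    intro a z hz
    rw [hs a, mem_preimage, hf z hz]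
  have hval : ∀ a, ∀ z ∈ D \ I, f' z ∈ (A'.φ a).source →
      A'.φ a (f' z) = A.φ (e a) (f z) := by
    intro a z hz hz'
    rw [hφ a _ hz', hf z hz]
  refine ⟨h.opn, h.sub, h.ian, h.thin, ?_, ?_, ?_⟩
  · rw [hj.isInducing.continuousOn_iff]
    exact h.cont.congr fun z hz => hf z hz
  · intro a
    have h1 : {z | z ∈ D \ I ∧ f' z ∈ (A'.φ a).source}
        ⊆ {z | z ∈ D \ I ∧ f z ∈ (A.φ (e a)).source} := fun z hz =>
      ⟨hz.1, (hsrc a z hz.1).1 hz.2⟩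
    exact ((h.hol (e a)).mono h1).congr fun z hz => hval a z hz.1 hz.2
  · intro a z₀ hz₀ y₀ hy₀
    obtain ⟨r, m, G, l, hL⟩ := h.loc (e a) z₀ hz₀ y₀ hy₀
    refine ⟨r, m, G, l, hL.rpos, hL.rle, hL.dom, hL.ghol, hL.lhol, hL.l0, hL.iso, ?_⟩
    intro z y hzy hzI
    have hzD : z ∈ D \ I := ⟨(hL.dom z y hzy).1, hzI⟩
    rw [hL.gr z y hzy hzI, ← hsrc a z hzD]
    constructor
    · rintro ⟨h1, h2⟩
      exact ⟨h1, (hval a z hzD h1).trans h2⟩
    · rintro ⟨h1, h2⟩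
      exact ⟨h1, (hval a z hzD h1).symm.trans h2⟩

end Pool.Agent.H19.VG
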