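import Pool.Agent.H95.VG.Targets5

/-! module MRO of MP_6803f2_an -/

open MeasureTheory Set Filter Topology
open scoped ENNReal NNReal ContDiff ComplexConjugate

namespace Pool.Agent.H19.VG

open Pool.Agent.H95.VG

theorem Cb_mono {n : ℕ} {X : Type} [TopologicalSpace X] {ι : Type} (A : Atl n X ι) (f : V n → X)
    (a : ι) {R R' : ℝ} (h : R ≤ R') : Cb A f a R ⊆ Cb A f a R' := fun _ hz =>
  ⟨hz.1, Metric.closedBall_subset_closedBall h hz.2⟩

/-- module MRO -/
theorem mro (h1 : T_MOP) (h2 : T_S1M) (h3 : T_S2M) (h4 : T_S3M) (h5 : T_S4M) : T_MRO := by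
  intro n X _ _ _ ι _ A f I hn h
  have hn1 : 1 ≤ n := by omega
  obtain ⟨o1, o2, -, -⟩ := h1 n X ι A f I (Dp n) h
  have hsub : ∀ (K : Set (V n)) (a : ι),
      (K \ I) ∩ Cb A f a 2 ⊆ (K \ I) ∩ Cb A f a (5 / 2) := fun K a =>
    inter_subset_inter_right _ (Cb_mono A f a (by norm_num))
  refine ⟨hn, o1, measure_mono_null inter_subset_right o2, h.cont, h.hol, ?_, ?_, ?_, ?_⟩
  · intro K hK hKc a
    exact (lintegral_mono_set (hsub K a)).trans_lt (h2 n X ι A f I (Dp n) hn1 h K hK hKc a)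
  · intro K hK hKc
    obtain ⟨c, c1, c2, c3, c4, c5⟩ := h3 n X ι A f I (Dp n) hn1 h K hK hKc
    refine ⟨c, c1, c2, c3, c4, fun a Φ k => ?_⟩
    exact tendsto_of_tendsto_of_tendsto_of_le_of_le tendsto_const_nhds (c5 a Φ k)
      (fun _ => zero_le) (fun _ => lintegral_mono_set (hsub K a))
  · intro g η hg hη K hK hKc
    exact h4 n X ι A f I hn1 h g η hg hη K hK hKc
  · intro K hK hKc
    exact h5 n X ι A f I hn1 h K hK hKc

end Pool.Agent.H19.VG
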